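import Mathlib
set_option autoImplicit false

/-!
# The limited-visibility search number of Hamming graphs

In the game with visibility `d - 1` on the Hamming graph `H(d,n)`, `k` cops cannot guarantee to see
the robber if `3 k ≤ n`, for every dimension `d ≥ 1`.  With the known upper bound `⌈(n+1)/3⌉` this is
the exact value for all `d ≥ 2`, and the conjectured asymptotics `n/(d+1)` fail for every `d ≥ 3`.

Proof.  The cops see exactly the tuples that agree with a cop in some coordinate.  Let `S i t` be the
number of changes of the `i`-th coordinate of cops up to time `t`; all coordinates together change at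
most `k` times in a round.  The robber refreshes one coordinate in each round (he can move to every
value of this coordinate which no cop has now); between two refreshes of the coordinate `i` he has to
avoid the at most `k + (growth of S i)` values that cops had in this coordinate.  The values of `S i`
are cut into blocks of length `k`, and the coordinate is refreshed once while `S i` is in a block, so
the growth is at most `2 k - 1` between two refreshes.  The refreshes are scheduled by the rule
`earliest deadline first`, and a count of the blocks shows that no deadline is missed.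
-/

namespace Pool.Agent.Results.MP_b85c6a_co.ThirdOfOrder

open Finset Filter Topology

/-- The Hamming graph `H(d,n)`: the vertices are the `d`-tuples of elements of an `n`-element set, two
of them are adjacent when they differ in exactly one coordinate. -/
def hamming (d n : ℕ) : SimpleGraph (Fin d → Fin n) where
  Adj x y := ∃ i, x i ≠ y i ∧ ∀ j, j ≠ i → x j = y j
  symm := ⟨fun _ _ ⟨i, h1, h2⟩ => ⟨i, h1.symm, fun j hj => (h2 j hj).symm⟩⟩
  loopless := ⟨fun _ ⟨_, h, _⟩ => h rfl⟩

/-- Two vertices are at distance at most `l`. -/
def Near {V : Type*} (G : SimpleGraph V) (l : ℕ) (x y : V) : Prop := ∃ w : G.Walk x y, w.length ≤ l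

/-- The game with visibility `l` on `G`: `k` cops have a strategy (as long as they do not see the
robber it is a sequence `p` of positions, `p t` being their positions in round `t`) such that every
robber, whose positions `r t` are chosen with full knowledge of `p`, is seen after finitely many
rounds.  Round `t + 1`: the cops go from `p t` to `p (t + 1)`, then the robber goes from `r t` to
`r (t + 1)`; he is seen if a cop is at distance at most `l` from him after some move. -/
def CopsSee {V : Type*} (G : SimpleGraph V) (l k : ℕ) : Prop :=
  ∃ p : ℕ → Fin k → V, (∀ t j, p (t + 1) j = p t j ∨ G.Adj (p t j) (p (t + 1) j)) ∧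
    ∀ r : ℕ → V, (∀ t, r (t + 1) = r t ∨ G.Adj (r t) (r (t + 1))) →
      ∃ t j, Near G l (p t j) (r t) ∨ Near G l (p (t + 1) j) (r t)

/-- The least number of cops that can guarantee to see the robber in the game with visibility `l`. -/
noncomputable def searchNumber {V : Type*} (G : SimpleGraph V) (l : ℕ) : ℕ :=
  sInf {k | CopsSee G l k}

/-! ### Compactness -/

theorem konig {V : Type*} [Finite V] (R : ℕ → V → V → Prop)
    (h : ∀ T, ∃ r : ℕ → V, ∀ t < T, R t (r t) (r (t + 1))) :
    ∃ r : ℕ → V, ∀ t, R t (r t) (r (t + 1)) := by
  let _ : TopologicalSpace V := ⊥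
  have _ : DiscreteTopology V := ⟨rfl⟩
  let F : ℕ → Set (ℕ → V) := fun T => {r | ∀ t < T, R t (r t) (r (t + 1))}
  have hcl : ∀ T, IsClosed (F T) := by
    intro T
    have : F T = ⋂ t, ⋂ (_ : t < T), (fun r : ℕ → V => (r t, r (t + 1))) ⁻¹' {q | R t q.1 q.2} := by
      ext r
      simp [F]
    rw [this]
    refine isClosed_iInter fun t => isClosed_iInter fun _ => ?_
    exact (isClosed_discrete _).preimage ((continuous_apply t).prodMk (continuous_apply (t + 1)))
  have hne : (⋂ T, F T).Nonempty := by
    refine IsCompact.nonempty_iInter_of_sequence_nonempty_isCompact_isClosed F ?_ ?_ ?_ hcl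
    · intro T r hr t ht
      exact hr t (Nat.lt_succ_of_lt ht)
    · intro T
      exact h T
    · exact (hcl 0).isCompact
  obtain ⟨r, hr⟩ := hne
  refine ⟨r, fun t => ?_⟩
  have := Set.mem_iInter.1 hr (t + 1)
  exact this t (Nat.lt_succ_self t)

/-! ### Distances in the Hamming graph -/

theorem walk_length {d n : ℕ} {x y : Fin d → Fin n} (w : (hamming d n).Walk x y) :
    (univ.filter (fun i => x i ≠ y i)).card ≤ w.length := by
  induction w with
  | nil => simp
  | @cons u v z h w ih =>
    have h' := h
    obtain ⟨i, _, hi⟩ := h'
    have hsub : univ.filter (fun j => u j ≠ z j) ⊆ insert i (univ.filter (fun j => v j ≠ z j)) := by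
      intro j hj
      rw [mem_filter] at hj
      by_cases hji : j = i
      · rw [hji]; exact mem_insert_self _ _
      · refine mem_insert_of_mem ?_
        rw [mem_filter]
        exact ⟨mem_univ _, by rw [← hi j hji]; exact hj.2⟩
    change _ ≤ w.length + 1
    exact (card_le_card hsub).trans ((card_insert_le _ _).trans (Nat.succ_le_succ ih))

theorem near_agree {d n : ℕ} (hd : 1 ≤ d) {x y : Fin d → Fin n}
    (h : Near (hamming d n) (d - 1) x y) : ∃ i, x i = y i := by
  by_contra hcon
  push Not at hcon
  obtain ⟨w, hw⟩ := h
  have h1 := walk_length w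
  have h2 : univ.filter (fun i => x i ≠ y i) = univ := by
    ext i; simp [hcon i]
  rw [h2, card_univ, Fintype.card_fin] at h1
  omega

/-! ### The main invariant -/

section

variable {d n k : ℕ} (p : ℕ → Fin k → Fin d → Fin n)

/-- values of the `i`-th coordinate of cops at time `t` -/
def C (i : Fin d) (t : ℕ) : Finset (Fin n) := univ.image (fun j => p t j i)

/-- number of cops that change the coordinate `i` in round `t + 1` -/
def A (i : Fin d) (t : ℕ) : ℕ := (univ.filter (fun j => p (t + 1) j i ≠ p t j i)).card

/-- number of changes of the coordinate `i` up to time `t` -/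
def S (i : Fin d) (t : ℕ) : ℕ := ∑ s ∈ range t, A p i s

/-- a possible position of the robber at time `t` -/
def Reach (t : ℕ) (x : Fin d → Fin n) : Prop :=
  ∃ r : ℕ → Fin d → Fin n, r t = x ∧ (∀ s < t, r (s + 1) = r s ∨ (hamming d n).Adj (r s) (r (s + 1))) ∧
    (∀ s ≤ t, ∀ i j, p s j i ≠ r s i) ∧ (∀ s < t, ∀ i j, p (s + 1) j i ≠ r s i)

theorem C_card (i : Fin d) (t : ℕ) : (C p i t).card ≤ k := by
  refine card_image_le.trans ?_
  simp

theorem C_diff (i : Fin d) (t : ℕ) : (C p i (t + 1) \ C p i t).card ≤ A p i t := by
  have : C p i (t + 1) \ C p i t ⊆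
      (univ.filter (fun j => p (t + 1) j i ≠ p t j i)).image (fun j => p (t + 1) j i) := by
    intro v hv
    obtain ⟨h1, h2⟩ := Finset.mem_sdiff.1 hv
    obtain ⟨j, _, rfl⟩ := mem_image.1 h1
    refine mem_image.2 ⟨j, mem_filter.2 ⟨mem_univ _, fun h => h2 ?_⟩, rfl⟩
    rw [h]
    exact mem_image.2 ⟨j, mem_univ _, rfl⟩
  exact (card_le_card this).trans card_image_le

theorem A_sum (hp : ∀ t j, p (t + 1) j = p t j ∨ (hamming d n).Adj (p t j) (p (t + 1) j)) (t : ℕ) :
    ∑ i, A p i t ≤ k := by
  have h1 : ∑ i, A p i t = ∑ j : Fin k, (univ.filter (fun i => p (t + 1) j i ≠ p t j i)).card := by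
    simp only [A, card_filter]
    rw [sum_comm]
  rw [h1]
  have h2 : ∀ j ∈ (univ : Finset (Fin k)),
      (univ.filter (fun i => p (t + 1) j i ≠ p t j i)).card ≤ 1 := by
    intro j _
    rw [card_le_one]
    intro a ha b hb
    rw [mem_filter] at ha hb
    rcases hp t j with h | ⟨i, _, hi⟩
    · exact absurd (congrFun h a) ha.2
    · have ha' : a = i := by
        by_contra hne
        exact ha.2 (hi a hne).symm
      have hb' : b = i := by
        by_contra hne
        exact hb.2 (hi b hne).symm
      rw [ha', hb']
  calc _ ≤ ∑ _j : Fin k, 1 := sum_le_sum h2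
    _ = k := by simp

theorem S_succ (i : Fin d) (t : ℕ) : S p i (t + 1) = S p i t + A p i t := sum_range_succ _ _

theorem S_mono (i : Fin d) {s t : ℕ} (h : s ≤ t) : S p i s ≤ S p i t :=
  sum_le_sum_of_subset (range_mono h)

theorem S_sum (hp : ∀ t j, p (t + 1) j = p t j ∨ (hamming d n).Adj (p t j) (p (t + 1) j)) {s t : ℕ}
    (h : s ≤ t) : ∑ i, S p i t ≤ ∑ i, S p i s + k * (t - s) := by
  induction t, h using Nat.le_induction with
  | base => simp
  | succ t hst ih =>
    have h1 : ∑ i, S p i (t + 1) = ∑ i, S p i t + ∑ i, A p i t := by
      rw [← sum_add_distrib]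
      exact sum_congr rfl fun i _ => S_succ p i t
    have h2 := A_sum p hp t
    have h3 : t + 1 - s = (t - s) + 1 := by omega
    rw [h1, h3, Nat.mul_add, Nat.mul_one]
    omega

/-- the count of blocks: if every `c i` is beyond the block of `S i s`, few blocks end before time
`t` -/
theorem count_blocks (hk : 1 ≤ k)
    (hp : ∀ t j, p (t + 1) j = p t j ∨ (hamming d n).Adj (p t j) (p (t + 1) j)) (c : Fin d → ℕ)
    {s t : ℕ} (hst : s ≤ t)
    (hc : ∀ i, S p i (t + 1) / k - c i = 0 ∨ S p i s / k + 1 ≤ c i) :
    ∑ i, (S p i (t + 1) / k - c i) ≤ t - s := by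
  by_cases h0 : ∑ i, (S p i (t + 1) / k - c i) = 0
  · rw [h0]; exact Nat.zero_le _
  have key : ∀ i, k * (S p i (t + 1) / k - c i) + S p i s ≤ S p i (t + 1) ∧
      (1 ≤ S p i (t + 1) / k - c i → k * (S p i (t + 1) / k - c i) + S p i s + 1 ≤ S p i (t + 1)) := by
    intro i
    have hm : S p i s ≤ S p i (t + 1) := S_mono p i (by omega)
    by_cases h1 : S p i (t + 1) / k - c i = 0
    · rw [h1]
      exact ⟨by omega, by omega⟩
    · have h2 : S p i s / k + 1 ≤ c i := (hc i).resolve_left h1
      have h3 : S p i s < k * (S p i s / k + 1) := Nat.lt_mul_div_succ _ (by omega)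
      have h4 : k * (S p i (t + 1) / k) ≤ S p i (t + 1) := Nat.mul_div_le _ _
      have h5 : k * (S p i (t + 1) / k - c i) + k * c i = k * (S p i (t + 1) / k) := by
        rw [← Nat.mul_add]
        congr 1
        omega
      have h6 : k * (S p i s / k + 1) ≤ k * c i := Nat.mul_le_mul_left _ h2
      have h7 : k * (S p i (t + 1) / k - c i) + S p i s + 1 ≤ S p i (t + 1) := by omega
      exact ⟨by omega, fun _ => h7⟩
  have hex : ∃ i ∈ (univ : Finset (Fin d)), 1 ≤ S p i (t + 1) / k - c i := by
    by_contra hcon
    push Not at hcon
    apply h0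
    refine sum_eq_zero fun i hi => ?_
    have := hcon i hi
    omega
  obtain ⟨i0, _, hi0⟩ := hex
  have hlt : ∑ i, (k * (S p i (t + 1) / k - c i) + S p i s) < ∑ i, S p i (t + 1) :=
    sum_lt_sum (fun i _ => (key i).1) ⟨i0, mem_univ _, (key i0).2 hi0⟩
  rw [sum_add_distrib, ← mul_sum] at hlt
  have hS := S_sum p hp (s := s) (t := t + 1) (by omega)
  have h8 : k * ∑ i, (S p i (t + 1) / k - c i) < k * (t + 1 - s) := by omega
  have h9 := Nat.lt_of_mul_lt_mul_left h8
  omega

/-- The invariant. -/
theorem invariant (hk : 1 ≤ k) (hn : 3 * k ≤ n)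
    (hp : ∀ t j, p (t + 1) j = p t j ∨ (hamming d n).Adj (p t j) (p (t + 1) j)) (t : ℕ) :
    ∃ (c : Fin d → ℕ) (W : Fin d → Finset (Fin n)), (∀ x, (∀ i, x i ∈ W i) → Reach p t x) ∧
      (∀ i, n + c i * k ≤ (W i).card + S p i t + 2 * k) ∧ (∀ i, Disjoint (W i) (C p i t)) ∧
      (∀ u, t ≤ u → ∑ i, (S p i (u + 1) / k - c i) ≤ u - t) := by
  induction t with
  | zero =>
    refine ⟨fun _ => 1, fun i => (C p i 0)ᶜ, ?_, ?_, ?_, ?_⟩
    · intro x hx
      refine ⟨fun _ => x, rfl, fun s hs => absurd hs (Nat.not_lt_zero s), ?_,
        fun s hs => absurd hs (Nat.not_lt_zero s)⟩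
      intro s hs i j h
      have hs0 : s = 0 := Nat.le_zero.1 hs
      subst hs0
      have := mem_compl.1 (hx i)
      exact this (mem_image.2 ⟨j, mem_univ _, h⟩)
    · intro i
      have h1 := C_card p i 0
      rw [card_compl, Fintype.card_fin]
      simp only [S, range_zero, sum_empty]
      omega
    · intro i
      exact disjoint_compl_left
    · intro u hu
      refine count_blocks p hk hp _ hu fun i => Or.inr ?_
      simp [S]
  | succ t ih =>
    obtain ⟨c, W, hR, hW, hD, hS⟩ := ih
    -- the values that remain after the move of the cops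
    have hW1 : ∀ i, n + c i * k ≤ (W i \ C p i (t + 1)).card + S p i (t + 1) + 2 * k := by
      intro i
      have h1 : (W i ∩ C p i (t + 1)).card ≤ A p i t := by
        refine (card_le_card ?_).trans (C_diff p i t)
        intro v hv
        rw [mem_inter] at hv
        exact mem_sdiff.2 ⟨hv.2, fun h => disjoint_left.1 (hD i) hv.1 h⟩
      have h2 : (W i \ C p i (t + 1)).card + (W i ∩ C p i (t + 1)).card = (W i).card :=
        card_sdiff_add_card_inter _ _
      have h3 := hW i
      rw [S_succ]
      omega
    have hb : ∀ i, S p i (t + 1) / k ≤ c i := by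
      intro i
      have h1 := hS t le_rfl
      have h2 : S p i (t + 1) / k - c i ≤ ∑ i, (S p i (t + 1) / k - c i) :=
        single_le_sum (f := fun i => S p i (t + 1) / k - c i) (fun _ _ => Nat.zero_le _) (mem_univ i)
      omega
    have hne : ∀ i, (W i \ C p i (t + 1)).Nonempty := by
      intro i
      rw [← card_pos]
      have h1 := hW1 i
      have h2 : S p i (t + 1) < k * (c i + 1) :=
        lt_of_lt_of_le (Nat.lt_mul_div_succ _ (by omega))
          (Nat.mul_le_mul_left _ (Nat.succ_le_succ (hb i)))
      rw [Nat.mul_add, Nat.mul_one, Nat.mul_comm] at h2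
      omega
    -- choice of the coordinate: the pending block with the earliest deadline
    have hch : ∃ o : Option (Fin d), (∀ i ∈ o, S p i (t + 1) / k = c i) ∧
        ∀ u, t + 1 ≤ u → (∃ i ∈ o, 1 ≤ S p i (u + 1) / k - c i) ∨
          ∀ i, S p i (u + 1) / k - c i = 0 ∨ S p i (t + 1) / k + 1 ≤ c i := by
      by_cases hP : ∃ u, ∃ i, S p i (t + 1) / k = c i ∧ 1 ≤ S p i (u + 1) / k - c i
      · classical
        obtain ⟨i, hi1, hi2⟩ := Nat.find_spec hP
        refine ⟨some i, ?_, ?_⟩
        · intro j hj
          have : j = i := by simpa using hj.symm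
          rw [this]; exact hi1
        · intro u _
          by_cases hu : Nat.find hP ≤ u
          · left
            refine ⟨i, rfl, hi2.trans ?_⟩
            exact Nat.sub_le_sub_right (Nat.div_le_div_right (S_mono p i (by omega))) _
          · right
            intro j
            have h1 := Nat.find_min hP (not_le.1 hu)
            push Not at h1
            have h2 := h1 j
            have h3 := hb j
            by_cases h4 : S p j (t + 1) / k = c j
            · left
              have := h2 h4
              omega
            · right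
              omega
      · push Not at hP
        refine ⟨none, by simp, fun u _ => Or.inr fun i => ?_⟩
        have h2 := hP u i
        have h3 := hb i
        by_cases h4 : S p i (t + 1) / k = c i
        · left
          have := h2 h4
          omega
        · right
          omega
    obtain ⟨o, ho1, ho2⟩ := hch
    rcases o with _ | i0
    · -- no coordinate is refreshed
      refine ⟨c, fun i => W i \ C p i (t + 1), ?_, hW1, fun i => sdiff_disjoint, ?_⟩
      · intro x hx
        obtain ⟨r, hr0, hr1, hr2, hr3⟩ := hR x fun i => (mem_sdiff.1 (hx i)).1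
        have hxs : ∀ i j, p (t + 1) j i ≠ x i := fun i j h =>
          (mem_sdiff.1 (hx i)).2 (mem_image.2 ⟨j, mem_univ _, h⟩)
        refine ⟨fun s => if s ≤ t then r s else x, by simp, ?_, ?_, ?_⟩
        · intro s hs
          by_cases hst : s + 1 ≤ t
          · simp only [hst, if_true, if_pos (show s ≤ t by omega)]
            exact hr1 s (by omega)
          · have : s = t := by omega
            subst this
            left
            simp [hr0]
        · intro s hs i j
          by_cases hst : s ≤ t
          · simp only [hst, if_true]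
            exact hr2 s hst i j
          · have : s = t + 1 := by omega
            subst this
            simpa using hxs i j
        · intro s hs i j
          have hst : s ≤ t := by omega
          simp only [hst, if_true]
          rcases Nat.lt_or_eq_of_le hst with h | h
          · exact hr3 s h i j
          · subst h
            rw [hr0]
            exact hxs i j
      · intro u hu
        rcases ho2 u hu with ⟨i, hi, _⟩ | h
        · simp at hi
        · exact count_blocks p hk hp c hu h
    · -- the coordinate `i0` is refreshed
      have hc0 : S p i0 (t + 1) / k = c i0 := ho1 i0 rfl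
      refine ⟨Function.update c i0 (c i0 + 1),
        Function.update (fun i => W i \ C p i (t + 1)) i0 (C p i0 (t + 1))ᶜ, ?_, ?_, ?_, ?_⟩
      · intro x hx
        obtain ⟨v, hv⟩ := hne i0
        have hx' : ∀ i, i ≠ i0 → x i ∈ W i \ C p i (t + 1) := by
          intro i hi
          have := hx i
          rwa [Function.update_of_ne hi] at this
        have hx0 : x i0 ∉ C p i0 (t + 1) := by
          have := hx i0
          rw [Function.update_self] at this
          exact mem_compl.1 this
        have hy : ∀ i, Function.update x i0 v i ∈ W i \ C p i (t + 1) := by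
          intro i
          by_cases hi : i = i0
          · subst hi
            rw [Function.update_self]
            exact hv
          · rw [Function.update_of_ne hi]
            exact hx' i hi
        obtain ⟨r, hr0, hr1, hr2, hr3⟩ := hR (Function.update x i0 v) fun i =>
          (mem_sdiff.1 (hy i)).1
        have hxs : ∀ i j, p (t + 1) j i ≠ x i := by
          intro i j h
          by_cases hi : i = i0
          · subst hi
            exact hx0 (mem_image.2 ⟨j, mem_univ _, h⟩)
          · exact (mem_sdiff.1 (hx' i hi)).2 (mem_image.2 ⟨j, mem_univ _, h⟩)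
        refine ⟨fun s => if s ≤ t then r s else x, by simp, ?_, ?_, ?_⟩
        · intro s hs
          by_cases hst : s + 1 ≤ t
          · simp only [hst, if_true, if_pos (show s ≤ t by omega)]
            exact hr1 s (by omega)
          · have : s = t := by omega
            subst this
            have e1 : (if s + 1 ≤ s then r (s + 1) else x) = x := by simp
            have e2 : (if s ≤ s then r s else x) = Function.update x i0 v := by simp [hr0]
            simp only [e1, e2]
            by_cases hvx : v = x i0
            · left
              rw [hvx, Function.update_eq_self]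
            · right
              refine ⟨i0, ?_, fun j hj => ?_⟩
              · rw [Function.update_self]; exact hvx
              · rw [Function.update_of_ne hj]
        · intro s hs i j
          by_cases hst : s ≤ t
          · simp only [hst, if_true]
            exact hr2 s hst i j
          · have : s = t + 1 := by omega
            subst this
            simpa using hxs i j
        · intro s hs i j
          have hst : s ≤ t := by omega
          simp only [hst, if_true]
          rcases Nat.lt_or_eq_of_le hst with h | h
          · exact hr3 s h i j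
          · subst h
            rw [hr0]
            intro h
            exact (mem_sdiff.1 (hy i)).2 (mem_image.2 ⟨j, mem_univ _, h⟩)
      · intro i
        by_cases hi : i = i0
        · subst hi
          rw [Function.update_self, Function.update_self, card_compl, Fintype.card_fin]
          have h1 := C_card p i (t + 1)
          have h2 : c i * k ≤ S p i (t + 1) := by
            rw [← hc0]; exact Nat.div_mul_le_self _ _
          rw [Nat.add_mul, Nat.one_mul]
          omega
        · rw [Function.update_of_ne hi, Function.update_of_ne hi]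
          exact hW1 i
      · intro i
        by_cases hi : i = i0
        · subst hi
          rw [Function.update_self]
          exact disjoint_compl_left
        · rw [Function.update_of_ne hi]
          exact sdiff_disjoint
      · intro u hu
        rcases ho2 u hu with ⟨i, hi, hiu⟩ | h
        · have hi' : i = i0 := by simpa using hi.symm
          subst hi'
          have h1 := hS u (by omega)
          have h2 : ∑ j, (S p j (u + 1) / k - Function.update c i (c i + 1) j) <
              ∑ j, (S p j (u + 1) / k - c j) := by
            refine sum_lt_sum (fun j _ => ?_) ⟨i, mem_univ _, ?_⟩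
            · by_cases hj : j = i
              · subst hj
                rw [Function.update_self]
                omega
              · rw [Function.update_of_ne hj]
            · rw [Function.update_self]
              omega
          omega
        · refine count_blocks p hk hp _ hu fun i => ?_
          by_cases hi : i = i0
          · subst hi
            right
            rw [Function.update_self, hc0]
          · rw [Function.update_of_ne hi]
            exact h i

end

theorem not_see {d n k : ℕ} (hd : 1 ≤ d) (hn1 : 1 ≤ n) (hn : 3 * k ≤ n) :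
    ¬ CopsSee (hamming d n) (d - 1) k := by
  rintro ⟨p, hp, h⟩
  have hex : ∃ r : ℕ → Fin d → Fin n, ∀ t, (r (t + 1) = r t ∨ (hamming d n).Adj (r t) (r (t + 1))) ∧
      (∀ i j, p t j i ≠ r t i) ∧ (∀ i j, p (t + 1) j i ≠ r t i) := by
    refine konig (fun t x y => (y = x ∨ (hamming d n).Adj x y) ∧ (∀ i j, p t j i ≠ x i) ∧
      (∀ i j, p (t + 1) j i ≠ x i)) fun T => ?_
    rcases Nat.eq_zero_or_pos k with rfl | hk
    · exact ⟨fun _ _ => ⟨0, hn1⟩, fun t _ => ⟨Or.inl rfl, fun i j => j.elim0, fun i j => j.elim0⟩⟩
    obtain ⟨c, W, hR, hW, hD, hS⟩ := invariant p hk hn hp T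
    have hne : ∀ i, (W i).Nonempty := by
      intro i
      rw [← card_pos]
      have h1 := hW i
      have h2 : S p i (T + 1) / k ≤ c i := by
        have h1 := hS T le_rfl
        have h2 : S p i (T + 1) / k - c i ≤ ∑ i, (S p i (T + 1) / k - c i) :=
          single_le_sum (f := fun i => S p i (T + 1) / k - c i) (fun _ _ => Nat.zero_le _)
            (mem_univ i)
        omega
      have h3 : S p i (T + 1) < k * (c i + 1) :=
        lt_of_lt_of_le (Nat.lt_mul_div_succ _ hk) (Nat.mul_le_mul_left _ (Nat.succ_le_succ h2))
      have h4 := S_mono p i (show T ≤ T + 1 by omega)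
      rw [Nat.mul_add, Nat.mul_one, Nat.mul_comm] at h3
      omega
    choose x hx using hne
    obtain ⟨r, _, hr1, hr2, hr3⟩ := hR x hx
    exact ⟨r, fun t ht => ⟨hr1 t ht, fun i j => hr2 t ht.le i j, fun i j => hr3 t ht i j⟩⟩
  obtain ⟨r, hr⟩ := hex
  obtain ⟨t, j, h1 | h1⟩ := h r fun t => (hr t).1
  · obtain ⟨i, hi⟩ := near_agree hd h1
    exact (hr t).2.1 i j hi
  · obtain ⟨i, hi⟩ := near_agree hd h1
    exact (hr t).2.2 i j hi

theorem see_many (d n : ℕ) : ∃ k, CopsSee (hamming d n) (d - 1) k := by
  refine ⟨Fintype.card (Fin d → Fin n), fun _ => (Fintype.equivFin _).symm, fun _ _ => Or.inl rfl,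
    fun r _ => ?_⟩
  have e : (Fintype.equivFin (Fin d → Fin n)).symm (Fintype.equivFin _ (r 0)) = r 0 :=
    Equiv.symm_apply_apply _ _
  refine ⟨0, Fintype.equivFin _ (r 0), Or.inl ?_⟩
  change Near _ _ ((Fintype.equivFin (Fin d → Fin n)).symm (Fintype.equivFin _ (r 0))) (r 0)
  rw [e]
  exact ⟨SimpleGraph.Walk.nil, Nat.zero_le _⟩

theorem lt_three_mul {d n : ℕ} (hd : 1 ≤ d) (hn : 1 ≤ n) :
    n < 3 * searchNumber (hamming d n) (d - 1) := by
  by_contra hcon
  have h1 : CopsSee (hamming d n) (d - 1) (searchNumber (hamming d n) (d - 1)) :=
    Nat.sInf_mem (see_many d n)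
  exact not_see hd hn (not_lt.1 hcon) h1

/-- `k ≤ n / 3` cops cannot guarantee to see the robber in the game with visibility `d - 1` on
`H(d,n)`; hence the search number is larger than `n / 3` for all dimensions, and for no `d ≥ 3` it is
asymptotic to `n / (d + 1)`. -/
theorem result :
    (∀ d n k : ℕ, 1 ≤ d → 1 ≤ n → 3 * k ≤ n → ¬ CopsSee (hamming d n) (d - 1) k) ∧
    (∀ d n : ℕ, 1 ≤ d → 1 ≤ n → n < 3 * searchNumber (hamming d n) (d - 1)) ∧
    (∀ d : ℕ, 3 ≤ d → ¬ Tendsto
      (fun n : ℕ => (searchNumber (hamming d n) (d - 1) : ℝ) * (d + 1) / n) atTop (𝓝 1)) := by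
  refine ⟨fun d n k hd hn h => not_see hd hn h, fun d n hd hn => lt_three_mul hd hn, ?_⟩
  intro d hd hT
  have h1 : ∀ᶠ n : ℕ in atTop,
      (searchNumber (hamming d n) (d - 1) : ℝ) * (d + 1) / n < 4 / 3 :=
    hT.eventually (gt_mem_nhds (by norm_num))
  obtain ⟨n, hn, hn1⟩ := (h1.and (eventually_ge_atTop 1)).exists
  have h2 := lt_three_mul (d := d) (n := n) (by omega) hn1
  have hn0 : (0 : ℝ) < n := by exact_mod_cast hn1
  rw [div_lt_iff₀ hn0] at hn
  have h3 : (n : ℝ) < 3 * (searchNumber (hamming d n) (d - 1) : ℝ) := by exact_mod_cast h2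
  have h4 : (3 : ℝ) ≤ d := by exact_mod_cast hd
  nlinarith

end Pool.Agent.Results.MP_b85c6a_co.ThirdOfOrder
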